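import Mathlib

set_option autoImplicit false

namespace Pool.Agent.Results.MP_9bc296_ag.GenSym

open Matrix Equiv

/-- The ideal generated by the permanents of all `t` by `t` submatrices of `X`. -/
def PI {A : Type} [CommRing A] {m n : ℕ} (t : ℕ) (X : Matrix (Fin m) (Fin n) A) : Ideal A :=
  Ideal.span {p | ∃ (r : Fin t ↪ Fin m) (c : Fin t ↪ Fin n), p = (X.submatrix r c).permanent}

section
variable {A B : Type} [CommRing A] [CommRing B] {ι : Type} [Fintype ι] [DecidableEq ι]

lemma pmap (f : A →+* B) (M : Matrix ι ι A) : f M.permanent = (M.map f).permanent := by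
  simp [permanent]

lemma pcol (M : Matrix ι ι A) (j : ι) (v : ι → A) :
    (M.updateCol j v).permanent = ∑ i, (M.updateCol j (Pi.single i 1)).permanent * v i := by
  simp only [permanent, ← Finset.mul_prod_erase _ _ (Finset.mem_univ j), updateCol_self, Finset.sum_mul]
  rw [Finset.sum_comm]
  refine Finset.sum_congr rfl fun σ _ => ?_
  have : ∀ w : ι → A, ∏ x ∈ Finset.univ.erase j, M.updateCol j w (σ x) x = ∏ x ∈ Finset.univ.erase j, M (σ x) x :=
    fun w => Finset.prod_congr rfl fun x hx => updateCol_ne (Finset.ne_of_mem_erase hx)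
  simp [this, Pi.single_apply, mul_comm]

/-- Permanent of a matrix supported on the diagonal, row `j` and column `j`. -/
lemma arrow (M : Matrix ι ι A) (j : ι) (h : ∀ a b, a ≠ b → a ≠ j → b ≠ j → M a b = 0) :
    M.permanent = ∑ l, ∏ c, M (swap j l c) c := by
  rw [permanent, ← Finset.sum_image (g := fun l => swap j l) (f := fun σ : Perm ι => ∏ c, M (σ c) c)
    (fun a _ b _ e => by simpa using congrArg (fun σ : Perm ι => σ j) e)]
  refine (Finset.sum_subset (Finset.subset_univ _) fun σ _ hσ => ?_).symm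
  by_contra e
  have e1 : ∀ c, c ≠ j → σ c ≠ j → σ c = c := fun c h1 h2 => by
    by_contra h3
    exact e (Finset.prod_eq_zero (Finset.mem_univ c) (h _ _ h3 h2 h1))
  refine hσ (Finset.mem_image.2 ⟨σ.symm j, Finset.mem_univ _, Equiv.ext fun c => ?_⟩)
  have e2 : ∀ c, c ≠ j → c ≠ σ.symm j → σ c = c := fun c h1 h2 => e1 c h1 fun h3 => h2 (by simp [← h3])
  by_cases h1 : c = j
  · subst h1
    rw [swap_apply_left]
    by_contra h3
    by_cases h4 : σ c = c
    · exact h3 (by rw [h4, Equiv.symm_apply_eq, h4])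
    · exact h4 (σ.injective (e2 _ h4 (Ne.symm h3)))
  by_cases h2 : c = σ.symm j
  · simp [h2]
  · rw [swap_apply_of_ne_of_ne h1 h2, e2 c h1 h2]

lemma pswap (M : Matrix ι ι A) {j l : ι} (h : l ≠ j) (h1 : ∀ c, c ≠ j → c ≠ l → M c c = 1) :
    ∏ c, M (swap j l c) c = M l j * M j l := by
  rw [← Finset.mul_prod_erase _ _ (Finset.mem_univ j), ← Finset.mul_prod_erase _ _
    (Finset.mem_erase.2 ⟨h, Finset.mem_univ l⟩), Finset.prod_eq_one fun c hc => ?_]
  · simp
  · simp only [Finset.mem_erase] at hc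
    rw [swap_apply_of_ne_of_ne hc.2.1 hc.1, h1 c hc.2.1 hc.1]

end

variable {k : Type} [Field k] {s : ℕ}

/-- An arrow matrix with permanent zero. -/
def Y (k : Type) [Field k] (s : ℕ) : Matrix (Fin (s + 1)) (Fin (s + 1)) k :=
  fun a b => if a = 0 then (if b = 0 then -s else 1) else if b = 0 ∨ a = b then 1 else 0

lemma Ysucc (v : Fin (s + 1) → k) :
    ((Y k s).updateCol 0 v).permanent = ∑ i, v i := by
  rw [arrow _ 0 fun a b h1 h2 h3 => by simp [Y, h1, h2, h3], Fin.sum_univ_succ, Fin.sum_univ_succ]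
  congr 1
  · simp [Fin.prod_univ_succ, Y]
  · exact Finset.sum_congr rfl fun l _ => by
      rw [pswap _ (Fin.succ_ne_zero l) fun c h _ => by simp [Y, h]]
      simp [Y]

lemma Y0 : (Y k s).permanent = 0 := by
  rw [← updateCol_eq_self (Y k s) 0, Ysucc, Fin.sum_univ_succ]
  simp [Y]

lemma Y1 (N : Matrix (Fin (s + 1)) (Fin (s + 1)) k) {j : Fin (s + 1)} (hj : j ≠ 0)
    (h : ∀ a b, a ≠ b → a ≠ 0 → b ≠ 0 → N a b = 0) (h1 : ∀ c, c ≠ 0 → N c c = 1) (h2 : N j 0 = 1) :
    (N.updateCol j (Pi.single 0 1)).permanent = 1 := by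
  rw [arrow _ 0 fun a b h1 h2 h3 => by simp [updateCol_apply, h _ _ h1 h2 h3, h2], Finset.sum_eq_single j
    (fun l _ hl => Finset.prod_eq_zero (Finset.mem_univ j) (by simp [swap_apply_of_ne_of_ne hj hl.symm, hj]))
    (by simp), pswap _ hj fun c h h' => by simp [h', h1 c h]]
  simp [hj.symm, h2]

lemma Y2 {j : Fin (s + 1)} (hj : j ≠ 0) (i : Fin (s + 1)) :
    ((Y k s).updateCol j (Pi.single i 1)).permanent = 1 - if i = j then 2 else 0 := by
  by_cases h0 : i = 0
  · rw [h0, Y1 _ hj (fun a b h1 h2 h3 => by simp [Y, h1, h2, h3]) (fun c h => by simp [Y, h]) (by simp [Y, hj])]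
    simp [hj.symm]
  by_cases h1 : i = j
  · subst h1
    rw [arrow _ 0 fun a b h1 h2 h3 => by
      by_cases e : b = i <;> simp_all [Y], Fin.sum_univ_succ]
    have : ∀ c, c ≠ 0 → (Y k s).updateCol i (Pi.single i 1) c c = 1 := fun c h => by
      by_cases e : c = i <;> simp [e, Y, h]
    obtain ⟨i, rfl⟩ := Fin.exists_succ_eq.2 hj
    rw [Finset.sum_congr rfl fun l _ => pswap _ (Fin.succ_ne_zero l) fun c h _ => this c h,
      Fin.prod_univ_succ, Finset.prod_eq_one fun c _ => by simpa using this c.succ (by simp)]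
    simp [updateCol_apply, Y, Finset.sum_ite, Finset.filter_ne', (Fin.succ_ne_zero i).symm]
    rw [Nat.cast_pred i.pos]; ring
  · have e : ((Y k s).updateCol j (Pi.single i 1)).submatrix id (swap i j) =
        ((Y k s).updateCol i (Pi.single i 1)).updateCol j (Pi.single 0 1 + Pi.single i 1) := by
      ext a b
      by_cases e1 : b = j
      · by_cases e2 : a = 0 <;> simp [e1, e2, h1, Y, h0, Pi.single_apply, Ne.symm h0]
      by_cases e2 : b = i
      · simp [e2, h1]
      · simp [swap_apply_of_ne_of_ne e2 e1, e1, e2]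
    rw [← permanent_permute_rows (swap i j), e, pcol]
    simp only [Pi.add_apply, mul_add, Finset.sum_add_distrib, ← pcol]
    rw [Y1 _ hj (fun a b h1 h2 h3 => by by_cases e : b = i <;> simp_all [Y])
      (fun c h => by by_cases e : c = i <;> simp [e, Y, h]) (by simp [Y, hj, Ne.symm h0]), if_neg h1, sub_zero,
      add_eq_left]
    refine Finset.sum_eq_zero fun σ _ => ?_
    by_cases e : σ i = i
    · exact Finset.prod_eq_zero (Finset.mem_univ j) (by
        simp [show σ j ≠ i from fun h => h1 (σ.injective (e.trans h.symm))])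
    · exact Finset.prod_eq_zero (Finset.mem_univ i) (by simp [h1, e])

lemma Ydet (h2 : (2 : k) ≠ 0) :
    (of fun j i => ((Y k s).updateCol j (Pi.single i 1)).permanent).det ≠ 0 := by
  rw [Ne, ← exists_mulVec_eq_zero_iff]
  rintro ⟨v, hv, h⟩
  have h0 : ∑ i, v i = 0 := by
    rw [← Ysucc, pcol]; exact congrFun h 0
  have h1 : ∀ j, j ≠ 0 → v j = 0 := fun j hj => by
    simpa [mulVec, dotProduct, Y2 hj, sub_mul, h0, h2] using congrFun h j
  refine hv (funext fun j => ?_)
  by_cases e : j = 0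
  · rw [Fin.sum_univ_succ] at h0
    simpa [h1, e] using h0
  · exact h1 j e

/-- The arrow matrix padded with zeros. -/
def Z (k : Type) [Field k] (s a b : ℕ) : k :=
  if h : a < s + 1 ∧ b < s + 1 then Y k s ⟨a, h.1⟩ ⟨b, h.2⟩ else 0

lemma Zsymm (a b : ℕ) : Z k s a b = Z k s b a := by
  simp only [Z, Y, and_comm (a := b < _)]
  split_ifs <;> simp_all [eq_comm]

lemma Zperm (r c : Fin (s + 1) → ℕ) (hr : r.Injective) (hc : c.Injective) :
    (of fun i j => Z k s (r i) (c j)).permanent = 0 := by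
  by_cases h : (∀ i, r i < s + 1) ∧ ∀ j, c j < s + 1
  · let p : ∀ r : Fin (s + 1) → ℕ, r.Injective → (∀ i, r i < s + 1) → Perm (Fin (s + 1)) := fun r h1 h2 =>
      Equiv.ofBijective (fun i => ⟨r i, h2 i⟩) (Finite.injective_iff_bijective.1 fun a b e =>
        h1 (congrArg Fin.val e))
    have : (of fun i j => Z k s (r i) (c j)) =
        ((Y k s).submatrix (p r hr h.1) id).submatrix id (p c hc h.2) := by
      ext i j
      exact dif_pos ⟨h.1 i, h.2 j⟩
    rw [this, permanent_permute_rows, permanent_permute_cols, Y0]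
  refine Finset.sum_eq_zero fun σ _ => ?_
  rcases not_and_or.1 h with h | h <;> obtain ⟨i, h⟩ := not_forall.1 h
  · exact Finset.prod_eq_zero (Finset.mem_univ (σ.symm i)) (dif_neg fun e => h (by simpa using e.1))
  · exact Finset.prod_eq_zero (Finset.mem_univ i) (dif_neg fun e => h e.2)

lemma key {σ : Type} {m n : ℕ} (g : Fin m → Fin n → σ) (y : σ → k) (h2 : (2 : k) ≠ 0)
    (hy : ∀ i j, y (g i j) = Z k (s + 1) i j) (hm : s + 1 < m) (hn : s + 2 < n) :
    ¬ (PI (s + 2) (of fun i j => (MvPolynomial.X (g i j) : MvPolynomial σ k))).IsPrime := by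
  intro hP
  set X : Matrix (Fin m) (Fin n) (MvPolynomial σ k) := of fun i j => MvPolynomial.X (g i j)
  let r := Fin.castLEEmb (show s + 2 ≤ m from hm)
  let c := Fin.castLEEmb hn.le
  let u : Fin n := ⟨s + 2, hn⟩
  let B := of fun j i => ((X.submatrix r c).updateCol j (Pi.single i 1)).permanent
  have hu : ∀ a, c a ≠ u := fun a e => a.2.ne (congrArg Fin.val e)
  have h1 : ∀ j, (B *ᵥ fun i => X (r i) u) j ∈ PI (s + 2) X := fun j => by
    refine Ideal.subset_span ⟨r, ⟨Function.update c j u, fun a b e => ?_⟩, ?_⟩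
    · by_cases ea : a = j <;> by_cases eb : b = j <;> simp_all [(hu _).symm]
    · refine (pcol _ j _).symm.trans ?_
      congr 1
      refine Matrix.ext fun a b => ?_
      show _ = X (r a) (Function.update c j u b)
      by_cases e : b = j <;> simp [e]
  have h3 : B.det * X (r 0) u ∈ PI (s + 2) X := by
    have := congrFun (mulVec_mulVec (fun i => X (r i) u) B.adjugate B) 0
    rw [adjugate_mul, smul_mulVec, one_mulVec] at this
    rw [← show _ = B.det * X (r 0) u from this]
    exact sum_mem (t := Finset.univ) fun j _ => Ideal.mul_mem_left _ (B.adjugate 0 j) (h1 j)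
  rcases hP.mem_or_mem h3 with h | h
  · refine Ydet (s := s + 1) h2 ?_
    have : PI (s + 2) X ≤ RingHom.ker (MvPolynomial.eval y) := Ideal.span_le.2 (by
      rintro _ ⟨r, c, rfl⟩
      refine (pmap _ _).trans ((congrArg _ ?_).trans (Zperm (fun i => r i) (fun i => c i)
        (Fin.val_injective.comp r.injective) (Fin.val_injective.comp c.injective)))
      ext i j
      simp [X, hy])
    rw [← this h, RingHom.map_det]
    congr 1
    ext j i
    show _ = MvPolynomial.eval y (permanent _)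
    rw [pmap, of_apply]
    congr 1
    ext a b
    by_cases e : b = j
    · simp [e, Pi.single_apply]
    · simp only [updateCol_apply, if_neg e, map_apply, submatrix_apply, X, of_apply, MvPolynomial.eval_X, hy]
      show _ = Z k (s + 1) a b
      rw [Z, dif_pos ⟨a.2, b.2⟩]
  · have : PI (s + 2) X ≤ MvPolynomial.idealOfVars σ k ^ 2 := Ideal.span_le.2 (by
      rintro _ ⟨r, c, rfl⟩
      refine sum_mem fun τ _ => ?_
      rw [Fin.prod_univ_succ, Fin.prod_univ_succ, ← mul_assoc, sq]
      exact Ideal.mul_mem_right _ _ (Ideal.mul_mem_mul (Ideal.subset_span ⟨_, rfl⟩) (Ideal.subset_span ⟨_, rfl⟩)))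
    simpa using (MvPolynomial.monomial_mem_pow_idealOfVars_iff 2 _ one_ne_zero).1 (this h)

theorem result (k : Type) [Field k] (h2 : (2 : k) ≠ 0) (m n t : ℕ) (σ : Type) (g : Fin m → Fin n → σ)
    (hg : ∀ i j a b, g i j = g a b → (i = a ∧ j = b) ∨ ((i : ℕ) = b ∧ (j : ℕ) = a))
    (ht : 2 ≤ t) (hm : t ≤ m) (hn : t ≤ n) (h : ¬ (t = m ∧ t = n)) :
    ¬ (PI t (Matrix.of fun i j => (MvPolynomial.X (g i j) : MvPolynomial σ k))).IsPrime := by
  classical
  obtain ⟨s, rfl⟩ := Nat.exists_eq_add_of_le' ht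
  obtain ⟨y, hy⟩ : ∃ y : σ → k, ∀ i j, y (g i j) = Z k (s + 1) i j := by
    refine ⟨fun v => if h : ∃ p : Fin m × Fin n, g p.1 p.2 = v then Z k (s + 1) h.choose.1 h.choose.2 else 0,
      fun i j => ?_⟩
    have e : ∃ p : Fin m × Fin n, g p.1 p.2 = g i j := ⟨(i, j), rfl⟩
    simp only [dif_pos e]
    rcases hg _ _ _ _ e.choose_spec with ⟨a, b⟩ | ⟨a, b⟩ <;> rw [a, b]
    exact Zsymm _ _
  by_cases e : s + 2 < n
  · exact key g y h2 hy hm e
  have := key (fun i j => g j i) y h2 (fun i j => (hy j i).trans (Zsymm _ _)) hn (by omega)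
  convert this using 2
  refine congrArg Ideal.span (Set.ext fun p => ?_)
  constructor <;> rintro ⟨r, c, rfl⟩ <;> exact ⟨c, r, (permanent_transpose _).symm⟩

end Pool.Agent.Results.MP_9bc296_ag.GenSym
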